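import Mathlib
import Pool.Agent.N792.FlGen
import Pool.Agent.U839.Sv.Poor

set_option autoImplicit false

/-! # Pairs `n`, `n + g` without small prime factors -/

open Finset Filter Topology

namespace Pool.Agent.U839.Rg

open Pool.Agent.U839.Sv (Pr mem_Pr Pr_succ exists_level)

/-- the forbidden classes modulo `p` -/
def Om (g p : ℕ) : Finset ℕ := (range p).filter (fun r => p ∣ r ∨ p ∣ r + g)

theorem Om_mem (g p n : ℕ) (hp : 0 < p) : n % p ∈ Om g p ↔ p ∣ n ∨ p ∣ n + g := by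
  unfold Om
  rw [mem_filter, mem_range]
  have h1 : p ∣ n % p ↔ p ∣ n := by
    rw [Nat.dvd_mod_iff (dvd_refl p)]
  have h2 : p ∣ n % p + g ↔ p ∣ n + g := by
    rw [Nat.dvd_iff_mod_eq_zero, Nat.dvd_iff_mod_eq_zero, Nat.mod_add_mod]
  rw [h1, h2]
  exact ⟨fun h => h.2, fun h => ⟨Nat.mod_lt _ hp, h⟩⟩

theorem Om_card (g p : ℕ) (hp : 0 < p) : (Om g p).card ≤ 2 := by
  have h1 : Om g p ⊆ {0, (p - g % p) % p} := by
    intro r hr
    unfold Om at hr
    rw [mem_filter, mem_range] at hr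
    rw [mem_insert, mem_singleton]
    rcases hr.2 with h | h
    · left
      exact Nat.eq_zero_of_dvd_of_lt h hr.1
    · right
      have hg := Nat.mod_lt g hp
      have h2 : p ∣ r + g % p := by
        rw [Nat.dvd_iff_mod_eq_zero] at h ⊢
        rwa [Nat.add_mod_mod]
      obtain ⟨c, hc⟩ := h2
      rcases Nat.lt_or_ge c 1 with h3 | h3
      · have h4 : c = 0 := by omega
        subst h4
        have h5 : r = 0 := by omega
        have h6 : g % p = 0 := by omega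
        rw [h6, h5]
        simp
      · rcases Nat.lt_or_ge c 2 with h4 | h4
        · have h5 : c = 1 := by omega
          subst h5
          have h6 : r = p - g % p := by omega
          rw [← h6, Nat.mod_eq_of_lt hr.1]
        · have : p * 2 ≤ p * c := Nat.mul_le_mul_left p h4
          omega
  exact (card_le_card h1).trans card_le_two

theorem Om_two (g : ℕ) (hg : Even g) : (Om g 2).card = 1 := by
  have : Om g 2 = {0} := by
    unfold Om
    obtain ⟨k, hk⟩ := hg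
    ext r
    rw [mem_filter, mem_range, mem_singleton]
    omega
  rw [this, card_singleton]

theorem prod_low (g : ℕ) (hg : Even g) (t : ℕ) :
    1 / ((t : ℝ) + 1) ^ 2 ≤ ∏ p ∈ Pr t, (1 - ((Om g p).card : ℝ) / p) := by
  have key : ∀ t : ℕ, 2 ≤ t → 1 / ((t : ℝ) * (t - 1)) ≤ ∏ p ∈ Pr t, (1 - ((Om g p).card : ℝ) / p) := by
    intro t ht
    induction t, ht using Nat.le_induction with
    | base =>
      have : Pr 2 = {2} := by
        ext p
        rw [mem_Pr, mem_singleton]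
        constructor
        · rintro ⟨h1, h2⟩
          exact le_antisymm h2 h1.two_le
        · rintro rfl
          exact ⟨Nat.prime_two, le_rfl⟩
      rw [this, prod_singleton, Om_two g hg]
      norm_num
    | succ t ht ih =>
      have ht2 : (2 : ℝ) ≤ t := by exact_mod_cast ht
      rw [Pr_succ]
      split_ifs with h
      · rw [prod_insert (by rw [mem_Pr]; omega)]
        have h1 : ((t : ℝ) - 1) / (t + 1) ≤ 1 - ((Om g (t + 1)).card : ℝ) / ((t + 1 : ℕ) : ℝ) := by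
          have h2 : ((Om g (t + 1)).card : ℝ) ≤ 2 := by exact_mod_cast Om_card g (t + 1) (by omega)
          have h3 : 1 - ((Om g (t + 1)).card : ℝ) / ((t + 1 : ℕ) : ℝ) =
              ((t : ℝ) + 1 - (Om g (t + 1)).card) / (t + 1) := by
            push_cast
            field_simp
          rw [h3]
          apply div_le_div_of_nonneg_right _ (by linarith)
          linarith
        have h4 : 0 ≤ ((t : ℝ) - 1) / (t + 1) := div_nonneg (by linarith) (by linarith)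
        have h5 : 0 ≤ 1 / ((t : ℝ) * (t - 1)) :=
          div_nonneg zero_le_one (mul_nonneg (by linarith) (by linarith))
        calc 1 / (((t + 1 : ℕ) : ℝ) * (((t + 1 : ℕ) : ℝ) - 1)) =
            (((t : ℝ) - 1) / (t + 1)) * (1 / ((t : ℝ) * (t - 1))) := by
              have h6 : (t : ℝ) - 1 ≠ 0 := by linarith
              have h7 : (t : ℝ) ≠ 0 := by linarith
              push_cast
              rw [add_sub_cancel_right]
              field_simp
          _ ≤ _ := mul_le_mul h1 ih h5 (h4.trans h1)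
      · refine le_trans ?_ ih
        push_cast
        apply one_div_le_one_div_of_le
        · exact mul_pos (by linarith) (by linarith)
        · nlinarith
  rcases Nat.lt_or_ge t 2 with h | h
  · have : Pr t = ∅ := by
      apply eq_empty_of_forall_notMem
      intro p hp
      rw [mem_Pr] at hp
      have := hp.1.two_le
      omega
    rw [this, prod_empty, div_le_one (by positivity)]
    have : (0 : ℝ) ≤ t := Nat.cast_nonneg t
    nlinarith
  · refine le_trans ?_ (key t h)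
    have ht2 : (2 : ℝ) ≤ t := by exact_mod_cast h
    apply one_div_le_one_div_of_le
    · exact mul_pos (by linarith) (by linarith)
    · nlinarith

open Classical in
/-- many pairs -/
theorem pairs : ∃ K : ℝ, ∃ D : ℕ, 0 < K ∧ 1 ≤ D ∧ ∀ x t g : ℕ, Even g →
    (x : ℝ) / (2 * ((t : ℝ) + 1) ^ 2) - K * ((t : ℝ) + 2) ^ D ≤
      (((Ioc x (x + x)).filter (fun n => ∀ p, p.Prime → p ≤ t → ¬ p ∣ n ∧ ¬ p ∣ n + g)).card : ℝ) := by
  obtain ⟨C, hC, H⟩ := Pool.Agent.N792.fl_gen'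
  refine ⟨((C * 3 : ℕ) : ℝ) ^ (C * 3), 4 * (C * (C * 3)) + 2, by positivity, by omega, fun x t g hg => ?_⟩
  obtain ⟨J, hJ1, hJ2, hJ3⟩ := exists_level t
  obtain ⟨S, hS⟩ : ∃ S, S = (Ioc x (x + x)).filter
    (fun n => ∀ p, p.Prime → p ≤ t → ¬ p ∣ n ∧ ¬ p ∣ n + g) := ⟨_, rfl⟩
  rw [← hS]
  have h := H 2 (C * 3) J (C * 3) 1 x (x + x) (Pr t) (Om g) {0} S le_rfl (by omega) (by omega) le_rfl
    (by omega) (by simp) (fun p hp => by
      rw [mem_Pr] at hp
      exact ⟨hp.1, hp.2.trans hJ2, by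
        intro h1
        exact hp.1.one_lt.ne' (Nat.dvd_one.1 h1)⟩)
    (fun p _ => filter_subset _ _) (fun p hp _ => Om_card g p ((mem_Pr.1 hp).1.pos)) (fun n => by
      rw [hS, mem_filter, mem_Ioc]
      constructor
      · rintro ⟨h1, h2⟩
        refine ⟨h1, by simp [Nat.mod_one], fun p hp => ?_⟩
        rw [mem_Pr] at hp
        rw [Om_mem g p n hp.1.pos]
        have := h2 p hp.1 hp.2
        tauto
      · rintro ⟨h1, _, h2⟩
        refine ⟨h1, fun p hp hpt => ?_⟩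
        have h3 := h2 p (mem_Pr.2 ⟨hp, hpt⟩)
        rw [Om_mem g p n hp.pos] at h3
        tauto)
  rw [card_singleton] at h
  obtain ⟨V, hV⟩ : ∃ V, V = ∏ p ∈ Pr t, (1 - ((Om g p).card : ℝ) / p) := ⟨_, rfl⟩
  rw [← hV] at h
  have hVl : 1 / ((t : ℝ) + 1) ^ 2 ≤ V := by rw [hV]; exact prod_low g hg t
  have e1 : (((x + x : ℕ) : ℝ) - x) * (((1 : ℕ) : ℝ) / ((1 : ℕ) : ℝ)) * V = x * V := by
    push_cast
    ring
  rw [e1] at h
  have h2 := (abs_le.1 h).1
  clear h H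
  have hx0 : (0 : ℝ) ≤ x := Nat.cast_nonneg x
  have hV0 : 0 ≤ V := le_trans (by positivity) hVl
  have e2 : (1 / 2 : ℝ) ^ (C * 3) ≤ 1 / 2 := by
    calc (1 / 2 : ℝ) ^ (C * 3) ≤ (1 / 2) ^ 1 :=
          pow_le_pow_of_le_one (by norm_num) (by norm_num) (by omega)
      _ = 1 / 2 := pow_one _
  have e3 : (1 / 2 : ℝ) ^ (C * 3) * (x * V) ≤ 1 / 2 * (x * V) := by gcongr
  have e4 : (x : ℝ) / (2 * ((t : ℝ) + 1) ^ 2) ≤ 1 / 2 * (x * V) := by
    calc (x : ℝ) / (2 * ((t : ℝ) + 1) ^ 2) = 1 / 2 * (x * (1 / ((t : ℝ) + 1) ^ 2)) := by field_simp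
      _ ≤ 1 / 2 * (x * V) := by gcongr
  have e5 : ((1 : ℕ) : ℝ) * ((C * 3 : ℕ) : ℝ) ^ (C * 3) * ((J : ℝ) + 2) *
      ((2 ^ 2 ^ J) ^ (C * (C * 3))) ^ 2 ≤ ((C * 3 : ℕ) : ℝ) ^ (C * 3) * ((t : ℝ) + 2) ^ (4 * (C * (C * 3)) + 2) := by
    have k1 : (2 : ℝ) ^ 2 ^ J ≤ ((t : ℝ) + 2) ^ 2 := by
      have k2 : ((2 ^ 2 ^ J : ℕ) : ℝ) ≤ (((max t 2) ^ 2 : ℕ) : ℝ) := by exact_mod_cast hJ3
      push_cast at k2
      refine k2.trans ?_
      apply pow_le_pow_left₀ (by positivity)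
      apply max_le
      · linarith
      · have : (0 : ℝ) ≤ t := Nat.cast_nonneg t
        linarith
    have k3 : (J : ℝ) + 2 ≤ (2 : ℝ) ^ 2 ^ J := by
      have k4 : J + 2 ≤ 2 ^ 2 ^ J := by
        have k5 : J + 1 ≤ 2 ^ J := Nat.lt_two_pow_self
        have k6 : 2 ^ J + 1 ≤ 2 ^ 2 ^ J := Nat.lt_two_pow_self
        omega
      exact_mod_cast k4
    have k7 : (J : ℝ) + 2 ≤ ((t : ℝ) + 2) ^ 2 := k3.trans k1
    calc ((1 : ℕ) : ℝ) * ((C * 3 : ℕ) : ℝ) ^ (C * 3) * ((J : ℝ) + 2) *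
        ((2 ^ 2 ^ J) ^ (C * (C * 3))) ^ 2 ≤ 1 * ((C * 3 : ℕ) : ℝ) ^ (C * 3) * ((t : ℝ) + 2) ^ 2 *
        ((((t : ℝ) + 2) ^ 2) ^ (C * (C * 3))) ^ 2 := by
          rw [Nat.cast_one]
          gcongr
      _ = ((C * 3 : ℕ) : ℝ) ^ (C * 3) * ((t : ℝ) + 2) ^ (4 * (C * (C * 3)) + 2) := by
          rw [one_mul, ← pow_mul, ← pow_mul, mul_assoc, ← pow_add]
          congr 2
          ring
  generalize (1 / 2 : ℝ) ^ (C * 3) * (x * V) = A1 at h2 e3
  generalize ((1 : ℕ) : ℝ) * ((C * 3 : ℕ) : ℝ) ^ (C * 3) * ((J : ℝ) + 2) *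
      ((2 ^ 2 ^ J) ^ (C * (C * 3))) ^ 2 = A2 at h2 e5
  generalize ((C * 3 : ℕ) : ℝ) ^ (C * 3) * ((t : ℝ) + 2) ^ (4 * (C * (C * 3)) + 2) = A3 at e5 ⊢
  linarith

end Pool.Agent.U839.Rg
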