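import Mathlib
import Pool.Agent.U839.Sv.Fin
import Pool.Agent.U839.Fb.Sum

set_option autoImplicit false

/-! # Upper bounds for the sums of the weights over short windows -/

open Finset Filter Topology

namespace Pool.Agent.U839.Rg

open Pool.Agent.U839.Thin (tlog)
open Pool.Agent.U839.Sv (W W_eq W_pos W_bound W_mono W_ge_one fT fT_nonneg sum_window exists_R)

/-- the sums over windows of length `k ≤ 4 (log n) ^ 2` are at most `C k + (log n) ^ (3 / 2)` -/
def UB (T : ℕ → ℕ) (C : ℝ) : Prop := ∀ᶠ n : ℕ in atTop, ∀ k : ℕ, (k : ℝ) ≤ 4 * (Real.log n) ^ 2 →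
  ∑ m ∈ Ioc n (n + k), fT T m ≤ C * k + (Real.log n) ^ (3 / 2 : ℝ)

theorem fT_congr (T T' : ℕ → ℕ) (m : ℕ) (h : T m = T' m) : fT T m = fT T' m := by
  unfold fT
  rw [h]

theorem W_low : ∀ᶠ N : ℕ in atTop, Real.log N ≤ W N := by
  have h := Pool.Agent.H305R2.mertens_three
  have h0 : ∀ N : ℕ, (∏ p ∈ (Finset.Icc 1 N).filter Nat.Prime, (1 - (p : ℝ)⁻¹)⁻¹) = W N := by
    intro N
    unfold W
    simp only [one_div]
  simp only [h0] at h
  have hγ : (1 : ℝ) < Real.exp Real.eulerMascheroniConstant := by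
    rw [← Real.exp_zero]
    apply Real.exp_lt_exp.2
    have := Real.one_half_lt_eulerMascheroniConstant
    linarith
  filter_upwards [h.eventually (lt_mem_nhds hγ), tlog.eventually_gt_atTop 0] with N h1 h2
  rw [lt_div_iff₀ h2] at h1
  linarith

theorem log2_le : ∀ᶠ n : ℕ in atTop, Real.log ((2 * n : ℕ) : ℝ) ≤ 2 * Real.log n := by
  filter_upwards [eventually_ge_atTop 2] with n hn
  have hn0 : (2 : ℝ) ≤ n := by exact_mod_cast hn
  push_cast
  rw [Real.log_mul (by norm_num) (by linarith)]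
  have : Real.log 2 ≤ Real.log n := Real.log_le_log (by norm_num) hn0
  linarith

theorem sq_le_self : ∀ᶠ n : ℕ in atTop, 4 * (Real.log n) ^ 2 ≤ n := by
  have h1 := Pool.Agent.U839.Sv.log_sq_small 4 1 (by norm_num) one_pos
  filter_upwards [h1] with n hn
  rw [Real.rpow_one] at hn
  linarith [sq_nonneg (Real.log n)]

theorem pow_small (K : ℝ) (D : ℕ) (hD : 1 ≤ D) : ∀ᶠ n : ℕ in atTop, ∀ z : ℕ,
    (z : ℝ) ≤ (2 * Real.log n) ^ (1 / (D : ℝ)) → K * ((z : ℝ) + 2) ^ D ≤ (Real.log n) ^ (3 / 2 : ℝ) := by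
  have hD0 : (0 : ℝ) < D := by exact_mod_cast hD
  have h1 : ∀ᶠ n : ℕ in atTop, |K| * (3 ^ D * 2) ≤ (Real.log n) ^ (1 / 2 : ℝ) :=
    ((tendsto_rpow_atTop (by norm_num)).comp tlog).eventually_ge_atTop _
  filter_upwards [h1, tlog.eventually_ge_atTop 1] with n g1 g2 z hz
  have hL0 : 0 < Real.log n := by linarith
  have h2 : (1 : ℝ) ≤ (2 * Real.log n) ^ (1 / (D : ℝ)) := Real.one_le_rpow (by linarith) (by positivity)
  have h3 : (z : ℝ) + 2 ≤ 3 * (2 * Real.log n) ^ (1 / (D : ℝ)) := by linarith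
  have h4 : ((z : ℝ) + 2) ^ D ≤ 3 ^ D * (2 * Real.log n) := by
    calc ((z : ℝ) + 2) ^ D ≤ (3 * (2 * Real.log n) ^ (1 / (D : ℝ))) ^ D :=
          pow_le_pow_left₀ (by positivity) h3 D
      _ = 3 ^ D * (2 * Real.log n) := by
          rw [mul_pow, ← Real.rpow_natCast ((2 * Real.log n) ^ (1 / (D : ℝ))) D,
            ← Real.rpow_mul (by linarith)]
          congr 1
          rw [one_div_mul_cancel hD0.ne', Real.rpow_one]
  have h5 : (Real.log n) ^ (3 / 2 : ℝ) = (Real.log n) ^ (1 / 2 : ℝ) * Real.log n := by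
    nth_rewrite 3 [← Real.rpow_one (Real.log n)]
    rw [← Real.rpow_add hL0]
    norm_num
  calc K * ((z : ℝ) + 2) ^ D ≤ |K| * (3 ^ D * (2 * Real.log n)) := by
        apply mul_le_mul (le_abs_self K) h4 (by positivity) (abs_nonneg K)
    _ = |K| * (3 ^ D * 2) * Real.log n := by ring
    _ ≤ (Real.log n) ^ (1 / 2 : ℝ) * Real.log n := by gcongr
    _ = _ := h5.symm

/-- small sieves -/
theorem ub_small (T : ℕ → ℕ) (hT : Monotone T)
    (hTs : ∀ θ : ℝ, 0 < θ → ∀ᶠ n : ℕ in atTop, (T n : ℝ) ≤ (Real.log n) ^ θ) (δ : ℝ) (hδ : 0 < δ) :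
    UB T (1 + δ) := by
  obtain ⟨R, hR, hRδ⟩ := exists_R δ hδ
  have hmul : Tendsto (fun n : ℕ => 2 * n) atTop atTop := tendsto_id.const_mul_atTop' (by norm_num)
  have hD0 : (0 : ℝ) < ((8 * R + 18 : ℕ) : ℝ) := by positivity
  filter_upwards [hmul.eventually (hTs (1 / ((8 * R + 18 : ℕ) : ℝ)) (by positivity)),
    pow_small 1 (8 * R + 18) (by omega), log2_le, sq_le_self] with n g1 g2 g3 g4 k hk
  have hkn : k ≤ n := by
    have : (k : ℝ) ≤ n := hk.trans g4
    exact_mod_cast this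
  have h1 := sum_window R hR T hT n k (T (2 * n)) (hT (by omega))
  have h2 := (abs_le.1 h1).2
  have h3 : (T (2 * n) : ℝ) ≤ (2 * Real.log n) ^ (1 / ((8 * R + 18 : ℕ) : ℝ)) := by
    refine g1.trans ?_
    exact Real.rpow_le_rpow (Real.log_natCast_nonneg _) g3 (by positivity)
  have h4 := g2 _ h3
  rw [one_mul] at h4
  have h5 : (2 : ℝ) ^ 25 * (1 / 2) ^ (2 * R) * k ≤ δ * k := by gcongr
  linarith

/-- sieves up to a power of `log n` -/
theorem ub_pow (A : ℝ) (hA : 0 < A) : ∃ C : ℝ, 1 ≤ C ∧ ∀ T : ℕ → ℕ, Monotone T →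
    (∀ᶠ n : ℕ in atTop, (T n : ℝ) ≤ (Real.log n) ^ A) → UB T C := by
  obtain ⟨C₀, hC₀, hW⟩ := W_bound
  obtain ⟨K, hK⟩ : ∃ K : ℝ, K = 1 + 300 * (C₀ * (1 + 2 * A)) := ⟨_, rfl⟩
  have hK1 : 1 ≤ K := by rw [hK]; have : 0 < C₀ * (1 + 2 * A) := by positivity
                         linarith
  refine ⟨3 / 2 * K, by linarith, fun T hT hTA => ?_⟩
  have hmul : Tendsto (fun n : ℕ => 2 * n) atTop atTop := tendsto_id.const_mul_atTop' (by norm_num)
  -- the level
  obtain ⟨z, hz⟩ : ∃ z : ℕ → ℕ, z = fun n : ℕ => ⌊(2 * Real.log n) ^ (1 / ((122 : ℕ) : ℝ))⌋₊ := ⟨_, rfl⟩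
  have hz1 : Tendsto (fun n : ℕ => (2 * Real.log n) ^ (1 / ((122 : ℕ) : ℝ))) atTop atTop :=
    (tendsto_rpow_atTop (by norm_num)).comp (tlog.const_mul_atTop (by norm_num))
  have hzt : Tendsto z atTop atTop := by
    rw [hz]
    exact tendsto_nat_floor_atTop.comp hz1
  filter_upwards [hmul.eventually hTA, pow_small K 122 (by norm_num), log2_le, sq_le_self,
    hzt.eventually W_low, hz1.eventually_ge_atTop 2, Pool.Agent.U839.Fb.tloglog.eventually_ge_atTop 1,
    tlog.eventually_ge_atTop 2, Pool.Agent.U839.Fb.tloglog.eventually_ge_atTop (400 * Real.log 2)]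
    with n g1 g2 g3 g4 g5 g6 g7 g8 g9 k hk
  have hkn : k ≤ n := by
    have : (k : ℝ) ≤ n := hk.trans g4
    exact_mod_cast this
  obtain ⟨L, hL⟩ : ∃ L, L = Real.log n := ⟨_, rfl⟩
  rw [← hL] at g3 g6 g7 g8 g9
  have hL0 : 0 < L := by linarith
  obtain ⟨s, hs⟩ : ∃ s, s = z n := ⟨_, rfl⟩
  rw [← hs] at g5
  have hsu : (s : ℝ) ≤ (2 * L) ^ (1 / ((122 : ℕ) : ℝ)) := by
    rw [hs, hz, hL]
    exact Nat.floor_le (by positivity)
  have hsl : (2 * L) ^ (1 / ((122 : ℕ) : ℝ)) ≤ 2 * s := by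
    have h1 : (2 * L) ^ (1 / ((122 : ℕ) : ℝ)) < s + 1 := by
      rw [hs, hz, hL]
      exact Nat.lt_floor_add_one _
    linarith
  have hs1 : (1 : ℝ) ≤ s := by linarith
  -- `log s` is large
  have hlogs : Real.log L / 200 ≤ Real.log s := by
    have h1 : Real.log ((2 * L) ^ (1 / ((122 : ℕ) : ℝ))) ≤ Real.log (2 * s) :=
      Real.log_le_log (by positivity) hsl
    rw [Real.log_rpow (by positivity), Real.log_mul (by norm_num) hL0.ne',
      Real.log_mul (by norm_num) (by linarith)] at h1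
    have h2 : 0 < Real.log 2 := Real.log_pos (by norm_num)
    push_cast at h1
    linarith
  -- comparison of the weights
  have hcmp : ∀ m ∈ Ioc n (n + k), fT T m ≤ K * fT (fun m => min (T m) s) m := by
    intro m hm
    rw [mem_Ioc] at hm
    have hnn := fT_nonneg (fun m => min (T m) s) m
    rcases le_or_gt (T m) s with h1 | h1
    · have : fT (fun m => min (T m) s) m = fT T m := fT_congr _ _ m (min_eq_left h1)
      rw [this] at hnn ⊢
      nlinarith
    · have hTm : (T m : ℝ) ≤ (2 * L) ^ A := by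
        have h2 : (T m : ℝ) ≤ T (2 * n) := by exact_mod_cast hT (by omega : m ≤ 2 * n)
        refine h2.trans (g1.trans ?_)
        exact Real.rpow_le_rpow (Real.log_natCast_nonneg _) g3 hA.le
      have hTm0 : (0 : ℝ) < T m := by
        have : (s : ℝ) < T m := by exact_mod_cast h1
        linarith
      have hWT : W (T m) ≤ K * W s := by
        have h3 : Real.log (T m) ≤ 2 * A * Real.log L := by
          have h4 := Real.log_le_log hTm0 hTm
          rw [Real.log_rpow (by positivity), Real.log_mul (by norm_num) hL0.ne'] at h4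
          have h5 : Real.log 2 ≤ Real.log L := Real.log_le_log (by norm_num) g8
          nlinarith
        have h6 : W (T m) ≤ C₀ * (1 + 2 * A) * Real.log L := by
          refine (hW (T m)).trans ?_
          have h7 : C₀ * Real.log (T m) ≤ C₀ * (2 * A * Real.log L) := by gcongr
          have h8 : C₀ ≤ C₀ * Real.log L := by nlinarith
          linarith
        have h9 : Real.log L ≤ 200 * W s := by linarith
        have h10 : C₀ * (1 + 2 * A) * Real.log L ≤ C₀ * (1 + 2 * A) * (200 * W s) := by gcongr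
        have h11 := W_pos s
        have h12 : 0 < C₀ * (1 + 2 * A) := by positivity
        rw [hK]
        nlinarith [mul_pos h12 h11]
      rw [fT_congr (fun m => min (T m) s) (fun _ => s) m (min_eq_right h1.le)]
      unfold fT
      by_cases h2 : ∀ p : ℕ, p.Prime → p ≤ T m → ¬ p ∣ m
      · rw [if_pos h2, if_pos (fun p hp hps => h2 p hp (hps.trans h1.le))]
        exact hWT
      · rw [if_neg h2]
        split_ifs
        · have := W_pos s
          positivity
        · rw [mul_zero]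
  refine (sum_le_sum hcmp).trans ?_
  rw [← mul_sum]
  have hT' : Monotone (fun m => min (T m) s) := fun a b hab => min_le_min (hT hab) le_rfl
  have h1 := sum_window 13 le_rfl (fun m => min (T m) s) hT' n k s (min_le_right _ _)
  have h2 := (abs_le.1 h1).2
  have h3 : (2 : ℝ) ^ 25 * (1 / 2) ^ (2 * 13) = 1 / 2 := by norm_num
  rw [h3] at h2
  have h4 := g2 s (by rw [← hL]; exact hsu)
  rw [← hL] at h4 ⊢
  have h5 : ((s : ℝ) + 2) ^ (8 * 13 + 18) = ((s : ℝ) + 2) ^ 122 := by norm_num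
  rw [h5] at h2
  have h6 : K * ∑ m ∈ Ioc n (n + k), fT (fun m => min (T m) s) m ≤
      K * (3 / 2 * k + ((s : ℝ) + 2) ^ 122) := by
    apply mul_le_mul_of_nonneg_left _ (by linarith)
    linarith
  linarith

end Pool.Agent.U839.Rg
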