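import Mathlib
import Pool.Agent.U839.Rg.Win
import Pool.Agent.U839.Rg.Pair
import Pool.Agent.U839.Sv.Crit
import Pool.Agent.U839.Wg.Sm
import Pool.Agent.U839.Fb.Slln

set_option autoImplicit false

/-! # Gaps of given length -/

open MeasureTheory ProbabilityTheory Filter Finset Topology

namespace Pool.Agent.U839.Rg

open Pool.Agent.U839.Thin (tlog)
open Pool.Agent.U839.Sv (BB mixed mixed_prod W W_ge_one fT fT_nonneg Sieved law' dens)

variable {Ω : Type*} [MeasurableSpace Ω] {μ : Measure Ω} [IsProbabilityMeasure μ]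

/-- elementary -/
theorem one_sub_ge (x : ℝ) (hx : 0 ≤ x) (hx1 : x ≤ 1 / 2) : Real.exp (-(x + 2 * x ^ 2)) ≤ 1 - x := by
  have h1 : 0 < 1 - x := by linarith
  rw [← Real.le_log_iff_exp_le h1]
  have h2 := Real.one_sub_inv_le_log_of_pos h1
  have h3 : 1 - (1 - x)⁻¹ = -(x / (1 - x)) := by
    field_simp
    ring
  rw [h3] at h2
  refine le_trans ?_ h2
  rw [neg_le_neg_iff, div_le_iff₀ h1]
  nlinarith [mul_nonneg hx hx, mul_nonneg (mul_nonneg hx hx) (show 0 ≤ 1 - 2 * x by linarith)]

/-- among `n, …, n + g` exactly `n` and `n + g` are chosen -/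
def FF (E : ℕ → Set Ω) (g n : ℕ) : Set Ω := ⋂ k ∈ Icc n (n + g), BB E {n, n + g} k

omit [MeasurableSpace Ω] in
theorem FF_mem {E : ℕ → Set Ω} {g n : ℕ} {ω : Ω} : ω ∈ FF E g n ↔
    ∀ k, n ≤ k → k ≤ n + g → (ω ∈ E k ↔ k = n ∨ k = n + g) := by
  classical
  unfold FF BB
  simp only [Set.mem_iInter, Finset.mem_Icc]
  constructor
  · intro h k h1 h2
    have h3 := h k ⟨h1, h2⟩
    split_ifs at h3 with h4
    · rw [Set.mem_insert_iff, Set.mem_singleton_iff] at h4
      exact ⟨fun _ => h4, fun _ => h3⟩
    · rw [Set.mem_insert_iff, Set.mem_singleton_iff] at h4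
      exact ⟨fun h5 => absurd h5 h3, fun h5 => absurd h5 h4⟩
  · rintro h k ⟨h1, h2⟩
    have h3 := h k h1 h2
    split_ifs with h4
    · rw [Set.mem_insert_iff, Set.mem_singleton_iff] at h4
      exact h3.2 h4
    · rw [Set.mem_insert_iff, Set.mem_singleton_iff] at h4
      intro h5
      exact h4 (h3.1 h5)

theorem BB_meas {E : ℕ → Set Ω} (hm : ∀ n, MeasurableSet (E n)) (S : Set ℕ) (k : ℕ) :
    MeasurableSet (BB E S k) := by
  unfold BB
  split_ifs
  · exact hm k
  · exact (hm k).compl

theorem FF_meas {E : ℕ → Set Ω} (hm : ∀ n, MeasurableSet (E n)) (g n : ℕ) :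
    MeasurableSet (FF E g n) :=
  Finset.measurableSet_biInter _ (fun k _ => BB_meas hm _ k)

/-- lower bound for the probability -/
theorem FF_low {E : ℕ → Set Ω} (hm : ∀ n, MeasurableSet (E n)) (hE : iIndepSet E μ) (g n : ℕ)
    (hg : 0 < g) (hs : ∀ m ∈ Ioc n (n + g), μ.real (E m) ≤ 1 / 2) :
    μ.real (E n) * μ.real (E (n + g)) *
      Real.exp (-∑ m ∈ Ioc n (n + g), (μ.real (E m) + 2 * μ.real (E m) ^ 2)) ≤ μ.real (FF E g n) := by
  classical
  unfold FF
  rw [mixed_prod hE]
  have h1 : Icc n (n + g) = insert n (insert (n + g) (Ioo n (n + g))) := by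
    ext k
    simp only [Finset.mem_insert, Finset.mem_Icc, Finset.mem_Ioo]
    omega
  have hb1 : BB E {n, n + g} n = E n := by
    unfold BB
    rw [if_pos (Set.mem_insert _ _)]
  have hb2 : BB E {n, n + g} (n + g) = E (n + g) := by
    unfold BB
    rw [if_pos (Set.mem_insert_of_mem _ (Set.mem_singleton _))]
  rw [h1, Finset.prod_insert (by
    rw [Finset.mem_insert, Finset.mem_Ioo]; omega), Finset.prod_insert (by
    rw [Finset.mem_Ioo]; omega), hb1, hb2, ← mul_assoc]
  apply mul_le_mul_of_nonneg_left _ (by positivity)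
  have hb3 : ∀ k ∈ Ioo n (n + g), μ.real (BB E {n, n + g} k) = 1 - μ.real (E k) := by
    intro k hk
    rw [Finset.mem_Ioo] at hk
    unfold BB
    rw [if_neg (by rw [Set.mem_insert_iff, Set.mem_singleton_iff]; omega),
      probReal_compl_eq_one_sub (hm k)]
  rw [Finset.prod_congr rfl hb3]
  calc Real.exp (-∑ m ∈ Ioc n (n + g), (μ.real (E m) + 2 * μ.real (E m) ^ 2)) ≤
      Real.exp (-∑ m ∈ Ioo n (n + g), (μ.real (E m) + 2 * μ.real (E m) ^ 2)) := by
        apply Real.exp_le_exp.2
        rw [neg_le_neg_iff]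
        apply Finset.sum_le_sum_of_subset_of_nonneg Ioo_subset_Ioc_self
        intro m _ _
        positivity
    _ = ∏ m ∈ Ioo n (n + g), Real.exp (-(μ.real (E m) + 2 * μ.real (E m) ^ 2)) := by
        rw [← Real.exp_sum, Finset.sum_neg_distrib]
    _ ≤ ∏ m ∈ Ioo n (n + g), (1 - μ.real (E m)) := by
        apply Finset.prod_le_prod (fun m _ => (Real.exp_pos _).le)
        intro m hm'
        exact one_sub_ge _ measureReal_nonneg
          (hs m (Ioo_subset_Ioc_self hm'))

/-- correlations -/
theorem FF_cov {E : ℕ → Set Ω} (hE : iIndepSet E μ) (g : ℕ) (i j : ℕ) (hij : i < j) (hne : j ≠ i + g) :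
    μ.real (FF E g i ∩ FF E g j) - μ.real (FF E g i) * μ.real (FF E g j) ≤ 0 := by
  classical
  rcases Nat.lt_or_ge j (i + g) with h | h
  · have h1 : FF E g i ∩ FF E g j = ∅ := by
      apply Set.eq_empty_of_forall_notMem
      rintro ω ⟨h1, h2⟩
      rw [FF_mem] at h1 h2
      have h3 := (h2 j le_rfl (by omega)).2 (Or.inl rfl)
      have h4 := (h1 j hij.le h.le).1 h3
      omega
    rw [h1, measureReal_empty]
    have : 0 ≤ μ.real (FF E g i) * μ.real (FF E g j) := by positivity
    linarith
  · have hlt : i + g < j := lt_of_le_of_ne h (fun h' => hne h'.symm)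
    obtain ⟨S, hS⟩ : ∃ S : Set ℕ, S = {i, i + g, j, j + g} := ⟨_, rfl⟩
    have e1 : FF E g i = ⋂ k ∈ Icc i (i + g), BB E S k := by
      unfold FF
      apply Set.iInter₂_congr
      intro k hk
      rw [Finset.mem_Icc] at hk
      unfold BB
      have : k ∈ ({i, i + g} : Set ℕ) ↔ k ∈ S := by
        rw [hS]
        simp only [Set.mem_insert_iff, Set.mem_singleton_iff]
        omega
      simp only [this]
    have e2 : FF E g j = ⋂ k ∈ Icc j (j + g), BB E S k := by
      unfold FF
      apply Set.iInter₂_congr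
      intro k hk
      rw [Finset.mem_Icc] at hk
      unfold BB
      have : k ∈ ({j, j + g} : Set ℕ) ↔ k ∈ S := by
        rw [hS]
        simp only [Set.mem_insert_iff, Set.mem_singleton_iff]
        omega
      simp only [this]
    have e3 : FF E g i ∩ FF E g j = ⋂ k ∈ (Icc i (i + g) ∪ Icc j (j + g)), BB E S k := by
      rw [e1, e2]
      ext ω
      simp only [Set.mem_inter_iff, Set.mem_iInter, Finset.mem_union]
      constructor
      · rintro ⟨h1, h2⟩ k (hk | hk)
        · exact h1 k hk
        · exact h2 k hk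
      · intro h1
        exact ⟨fun k hk => h1 k (Or.inl hk), fun k hk => h1 k (Or.inr hk)⟩
    rw [e3, mixed_prod hE, Finset.prod_union (by
      rw [Finset.disjoint_left]
      intro k hk1 hk2
      rw [Finset.mem_Icc] at hk1 hk2
      omega), ← mixed_prod hE, ← mixed_prod hE, ← e1, ← e2, sub_self]

/-- it is unlikely that none of the events happens -/
theorem none_le {E : ℕ → Set Ω} (hm : ∀ n, MeasurableSet (E n)) (hE : iIndepSet E μ) (g : ℕ)
    (S : Finset ℕ) (hpos : 0 < ∑ n ∈ S, μ.real (FF E g n)) :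
    μ.real {ω | ∀ n ∈ S, ω ∉ FF E g n} ≤ 12 / ∑ n ∈ S, μ.real (FF E g n) := by
  classical
  obtain ⟨M, hM⟩ : ∃ M, M = ∑ n ∈ S, μ.real (FF E g n) := ⟨_, rfl⟩
  have hV : ∑ i ∈ S, ∑ j ∈ S, (μ.real (FF E g i ∩ FF E g j) - μ.real (FF E g i) * μ.real (FF E g j)) ≤
      3 * M := by
    have h1 : ∀ i ∈ S, ∑ j ∈ S, (μ.real (FF E g i ∩ FF E g j) -
        μ.real (FF E g i) * μ.real (FF E g j)) ≤ 3 * μ.real (FF E g i) := by
      intro i hi
      have h2 : ∀ j ∈ S, μ.real (FF E g i ∩ FF E g j) - μ.real (FF E g i) * μ.real (FF E g j) ≤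
          (if j = i then μ.real (FF E g i) else 0) + (if j = i + g then μ.real (FF E g i) else 0) +
          (if j ∈ ({i - g} : Finset ℕ) then μ.real (FF E g i) else 0) := by
        intro j _
        have hcr : μ.real (FF E g i ∩ FF E g j) - μ.real (FF E g i) * μ.real (FF E g j) ≤
            μ.real (FF E g i) := by
          have k1 : μ.real (FF E g i ∩ FF E g j) ≤ μ.real (FF E g i) :=
            measureReal_mono Set.inter_subset_left (measure_ne_top _ _)
          have k2 : 0 ≤ μ.real (FF E g i) * μ.real (FF E g j) := by positivity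
          linarith
        have h0 : 0 ≤ μ.real (FF E g i) := measureReal_nonneg
        by_cases c1 : j = i
        · rw [if_pos c1]
          split_ifs <;> linarith
        · by_cases c2 : j = i + g
          · rw [if_pos c2]
            split_ifs <;> linarith
          · by_cases c3 : i = j + g
            · have c4 : j ∈ ({i - g} : Finset ℕ) := by
                rw [Finset.mem_singleton]
                omega
              rw [if_pos c4]
              split_ifs <;> linarith
            · have h3 : μ.real (FF E g i ∩ FF E g j) - μ.real (FF E g i) * μ.real (FF E g j) ≤ 0 := by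
                rcases Nat.lt_or_gt_of_ne c1 with h4 | h4
                · rw [Set.inter_comm, mul_comm]
                  exact FF_cov hE g j i h4 c3
                · exact FF_cov hE g i j h4 c2
              split_ifs <;> linarith
      refine (Finset.sum_le_sum h2).trans ?_
      rw [Finset.sum_add_distrib, Finset.sum_add_distrib, Finset.sum_ite_eq', Finset.sum_ite_eq', if_pos hi]
      have h0 : 0 ≤ μ.real (FF E g i) := measureReal_nonneg
      have h4 : ∑ j ∈ S, (if j ∈ ({i - g} : Finset ℕ) then μ.real (FF E g i) else 0) ≤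
          μ.real (FF E g i) := by
        simp only [Finset.mem_singleton]
        rw [Finset.sum_ite_eq']
        split_ifs
        · exact le_rfl
        · exact h0
      have h5 : (if i + g ∈ S then μ.real (FF E g i) else 0) ≤ μ.real (FF E g i) := by
        split_ifs
        · exact le_rfl
        · exact h0
      linarith
    refine (Finset.sum_le_sum h1).trans ?_
    rw [← Finset.mul_sum, hM]
  have h := Pool.Agent.U839.Wg.sm (μ := μ) S (FF E g) (fun n _ => FF_meas hm g n) (3 * M) hpos hV
  rw [← hM] at hpos h ⊢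
  have hsub : {ω | ∀ n ∈ S, ω ∉ FF E g n} ⊆
      {ω | ((S.filter (fun i => ω ∈ FF E g i)).card : ℝ) ≤ M / 2} := by
    intro ω hω
    simp only [Set.mem_ofPred_eq] at hω ⊢
    rw [Finset.filter_eq_empty_iff.2 (fun n hn => hω n hn), Finset.card_empty, Nat.cast_zero]
    positivity
  refine (measureReal_mono hsub (measure_ne_top _ _)).trans (h.trans (le_of_eq ?_))
  field_simp
  norm_num

end Pool.Agent.U839.Rg
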