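import Mathlib
import Pool.Agent.U839.Rg.Ev

set_option autoImplicit false

/-! # All short even gaps occur -/

open MeasureTheory ProbabilityTheory Filter Finset Topology

namespace Pool.Agent.U839.Rg

open Pool.Agent.U839.Thin (tlog)
open Pool.Agent.U839.Sv (W W_ge_one fT fT_nonneg Sieved law' dens T_small)

variable {Ω : Type*} [MeasurableSpace Ω] {μ : Measure Ω} [IsProbabilityMeasure μ]

theorem fT_one {T : ℕ → ℕ} {t m : ℕ} (ht : T m ≤ t) (h : ∀ p, p.Prime → p ≤ t → ¬ p ∣ m) :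
    1 ≤ fT T m := by
  unfold fT
  rw [if_pos (fun p hp hpm => h p hp (hpm.trans ht))]
  exact W_ge_one _

set_option maxHeartbeats 4000000 in
/-- the expected number of gaps of length `g` is large -/
theorem mean_large (T : ℕ → ℕ) (hT : Monotone T)
    (hTs : ∀ ε : ℝ, 0 < ε → ∀ᶠ n : ℕ in atTop, (T n : ℝ) ≤ (n : ℝ) ^ ε) (C : ℝ) (hC : 1 ≤ C)
    (hUB : UB T C) (c : ℝ) (hc : 0 < c) (hcC : c * C < 1) {E : ℕ → Set Ω} (h : Sieved μ E T) :
    ∃ ε : ℝ, 0 < ε ∧ ∀ᶠ x : ℕ in atTop, ∀ g : ℕ, Even g → 0 < g → (g : ℝ) ≤ c * (Real.log x) ^ 2 →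
      ∃ S : Finset ℕ, S ⊆ Ioc x (x + x) ∧ (x : ℝ) ^ ε ≤ ∑ n ∈ S, μ.real (FF E g n) := by
  classical
  have hc1 : c ≤ 1 := by nlinarith
  obtain ⟨ε, hεd⟩ : ∃ ε : ℝ, ε = (1 - c * C) / 8 := ⟨_, rfl⟩
  have hε : 0 < ε := by rw [hεd]; linarith
  have hε8 : ε ≤ 1 / 8 := by
    rw [hεd]
    have : 0 < c * C := by positivity
    linarith
  have hcCe : c * C = 1 - 8 * ε := by rw [hεd]; ring
  refine ⟨ε, hε, ?_⟩
  obtain ⟨K, D, hK, hD, hpairs⟩ := pairs
  obtain ⟨n₀, hn₀⟩ := eventually_atTop.1 ((law' h hTs).and ((dens T hTs ε hε).and hUB))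
  have e4 : ∀ᶠ x : ℕ in atTop, 2 * (1 + K) ≤ (x : ℝ) ^ (ε / 2) :=
    ((tendsto_rpow_atTop (by positivity)).comp tendsto_natCast_atTop_atTop).eventually_ge_atTop _
  have e5 : ∀ᶠ x : ℕ in atTop, 4 / ε ≤ (Real.log x) ^ (1 / 2 : ℝ) :=
    ((tendsto_rpow_atTop (by norm_num)).comp tlog).eventually_ge_atTop _
  have e6 : ∀ᶠ x : ℕ in atTop, (2 * Real.log x) ^ 2 ≤ Real.exp (ε * Real.log x) := by
    have h1 := (isLittleO_pow_exp_pos_mul_atTop 2 hε).bound (show (0 : ℝ) < 1 / 4 by norm_num)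
    filter_upwards [tlog.eventually h1] with x hx
    rw [Real.norm_of_nonneg (by positivity), Real.norm_of_nonneg (Real.exp_pos _).le] at hx
    nlinarith
  filter_upwards [eventually_ge_atTop n₀, T_small T hTs (D + 2) (by omega) (ε / 2) (by positivity), e4,
    e5, e6, sq_le_self, tlog.eventually_ge_atTop 2, log2_le, eventually_ge_atTop 4] with
    x g1 g2 g3 g4 g5 g6 g7 g8 g9 g hge hg0 hgc
  obtain ⟨L, hL⟩ : ∃ L, L = Real.log x := ⟨_, rfl⟩
  rw [← hL] at g4 g5 g6 g7 g8 hgc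
  have hx4 : (4 : ℝ) ≤ x := by exact_mod_cast g9
  have hx0 : (0 : ℝ) < x := by linarith
  have hL0 : 0 < L := by linarith
  have hgx : g ≤ x := by
    have : (g : ℝ) ≤ x := by nlinarith [sq_nonneg L]
    exact_mod_cast this
  obtain ⟨t, ht⟩ : ∃ t, t = T (3 * x) := ⟨_, rfl⟩
  rw [← ht] at g2
  obtain ⟨S, hS⟩ : ∃ S, S = (Ioc x (x + x)).filter
    (fun n => ∀ p, p.Prime → p ≤ t → ¬ p ∣ n ∧ ¬ p ∣ n + g) := ⟨_, rfl⟩
  have hpx := hpairs x t g hge
  rw [← hS] at hpx
  refine ⟨S, by rw [hS]; exact filter_subset _ _, ?_⟩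
  -- the number of candidates
  have hcard : (x : ℝ) ^ (1 - ε) ≤ S.card := by
    refine le_trans ?_ hpx
    have ht2 : (1 : ℝ) ≤ (t : ℝ) + 2 := by
      have : (0 : ℝ) ≤ t := Nat.cast_nonneg t
      linarith
    have k1 : ((t : ℝ) + 1) ^ 2 ≤ (x : ℝ) ^ (ε / 2) := by
      refine le_trans ?_ g2
      calc ((t : ℝ) + 1) ^ 2 ≤ ((t : ℝ) + 2) ^ 2 := by
            apply pow_le_pow_left₀ (by positivity)
            linarith
        _ ≤ ((t : ℝ) + 2) ^ (D + 2) := pow_le_pow_right₀ ht2 (by omega)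
    have k2 : ((t : ℝ) + 2) ^ D ≤ (x : ℝ) ^ (ε / 2) := by
      refine le_trans ?_ g2
      exact pow_le_pow_right₀ ht2 (by omega)
    have hxe : 0 < (x : ℝ) ^ (ε / 2) := by positivity
    have k3 : (x : ℝ) ^ (1 - ε / 2) / 2 ≤ (x : ℝ) / (2 * ((t : ℝ) + 1) ^ 2) := by
      have k4 : (x : ℝ) ^ (1 - ε / 2) * (x : ℝ) ^ (ε / 2) = x := by
        rw [← Real.rpow_add hx0]
        norm_num
      rw [div_le_div_iff₀ (by norm_num) (by positivity)]
      have k5 : 0 < (x : ℝ) ^ (1 - ε / 2) := by positivity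
      nlinarith [mul_le_mul_of_nonneg_left k1 k5.le]
    have k6 : (x : ℝ) ^ (1 - ε / 2) = (x : ℝ) ^ (1 - ε) * (x : ℝ) ^ (ε / 2) := by
      rw [← Real.rpow_add hx0]
      congr 1
      ring
    have k7 : (x : ℝ) ^ (ε / 2) ≤ (x : ℝ) ^ (1 - ε) :=
      Real.rpow_le_rpow_of_exponent_le (by linarith) (by linarith)
    have k8 : 0 < (x : ℝ) ^ (1 - ε) := by positivity
    have k9 : K * ((t : ℝ) + 2) ^ D ≤ K * (x : ℝ) ^ (1 - ε) := by
      apply mul_le_mul_of_nonneg_left (k2.trans k7) hK.le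
    have k10 : (1 + K) * (x : ℝ) ^ (1 - ε) ≤ (x : ℝ) ^ (1 - ε / 2) / 2 := by
      rw [k6]
      nlinarith [mul_le_mul_of_nonneg_left g3 k8.le]
    linarith
  -- the probability of one event
  have hone : ∀ n ∈ S, (x : ℝ) ^ (-(1 - 4 * ε)) ≤ μ.real (FF E g n) := by
    intro n hn
    rw [hS, mem_filter, mem_Ioc] at hn
    obtain ⟨⟨hn1, hn2⟩, hn3⟩ := hn
    have hlogn : ∀ m : ℕ, x ≤ m → m ≤ 3 * x → L ≤ Real.log m ∧ Real.log m ≤ 2 * L := by
      intro m hm1 hm2
      have hm0 : (x : ℝ) ≤ m := by exact_mod_cast hm1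
      have hm3 : (m : ℝ) ≤ 3 * x := by exact_mod_cast hm2
      refine ⟨by rw [hL]; exact Real.log_le_log hx0 hm0, ?_⟩
      calc Real.log m ≤ Real.log (x * x) := Real.log_le_log (by linarith) (by nlinarith)
        _ = 2 * L := by rw [Real.log_mul hx0.ne' hx0.ne', hL]; ring
    have hρ : ∀ m, x ≤ m → μ.real (E m) = fT T m / Real.log m := fun m hm => (hn₀ m (by omega)).1
    have hρε : ∀ m, x ≤ m → μ.real (E m) ≤ ε := fun m hm => by
      rw [hρ m hm]; exact (hn₀ m (by omega)).2.1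
    have h1 := FF_low (μ := μ) h.meas h.indep g n hg0 (fun m hm => by
      rw [mem_Ioc] at hm
      exact (hρε m (by omega)).trans (by linarith))
    refine le_trans ?_ h1
    -- the two chosen elements
    have hlow : ∀ m, x ≤ m → m ≤ 3 * x → (∀ p, p.Prime → p ≤ t → ¬ p ∣ m) →
        1 / (2 * L) ≤ μ.real (E m) := by
      intro m hm1 hm2 hm3
      rw [hρ m hm1]
      have h2 := hlogn m hm1 hm2
      have h3 : 1 ≤ fT T m := fT_one (t := t) (by rw [ht]; exact hT hm2) hm3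
      rw [div_le_div_iff₀ (by positivity) (by linarith [h2.1])]
      nlinarith [h2.1, h2.2]
    have hEn := hlow n (by omega) (by omega) (fun p hp hpt => (hn3 p hp hpt).1)
    have hEg := hlow (n + g) (by omega) (by omega) (fun p hp hpt => (hn3 p hp hpt).2)
    -- the sum
    have hsum : ∑ m ∈ Ioc n (n + g), (μ.real (E m) + 2 * μ.real (E m) ^ 2) ≤ (1 - 5 * ε) * L := by
      have k1 : ∀ m ∈ Ioc n (n + g), μ.real (E m) + 2 * μ.real (E m) ^ 2 ≤
          (1 + 2 * ε) * (fT T m / L) := by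
        intro m hm
        rw [mem_Ioc] at hm
        have k2 := hρε m (by omega)
        have k3 : 0 ≤ μ.real (E m) := measureReal_nonneg
        have k4 : μ.real (E m) ≤ fT T m / L := by
          rw [hρ m (by omega)]
          exact div_le_div_of_nonneg_left (fT_nonneg T m) hL0 (hlogn m (by omega) (by omega)).1
        calc μ.real (E m) + 2 * μ.real (E m) ^ 2 ≤ (1 + 2 * ε) * μ.real (E m) := by nlinarith
          _ ≤ (1 + 2 * ε) * (fT T m / L) := by gcongr
      refine (Finset.sum_le_sum k1).trans ?_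
      rw [← Finset.mul_sum, ← Finset.sum_div]
      have k5 := (hn₀ n (by omega)).2.2 g (by
        have := (hlogn n hn1.le (by omega)).1
        nlinarith)
      have k6 : (Real.log n) ^ (3 / 2 : ℝ) ≤ 3 * (L * L ^ (1 / 2 : ℝ)) := by
        have k7 := (hlogn n hn1.le (by omega)).2
        have k8 : 0 ≤ Real.log n := Real.log_natCast_nonneg n
        have k9 : (2 : ℝ) ^ (3 / 2 : ℝ) ≤ 3 := by
          have : (2 : ℝ) ^ (3 / 2 : ℝ) = Real.sqrt 8 := by
            rw [Real.sqrt_eq_rpow, show (8 : ℝ) = 2 ^ (3 : ℝ) by norm_num, ← Real.rpow_mul (by norm_num)]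
            norm_num
          rw [this, Real.sqrt_le_left (by norm_num)]
          norm_num
        calc (Real.log n) ^ (3 / 2 : ℝ) ≤ (2 * L) ^ (3 / 2 : ℝ) := Real.rpow_le_rpow k8 k7 (by norm_num)
          _ = 2 ^ (3 / 2 : ℝ) * L ^ (3 / 2 : ℝ) := Real.mul_rpow (by norm_num) hL0.le
          _ = 2 ^ (3 / 2 : ℝ) * (L * L ^ (1 / 2 : ℝ)) := by
              congr 1
              nth_rewrite 2 [← Real.rpow_one L]
              rw [← Real.rpow_add hL0]
              norm_num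
          _ ≤ 3 * (L * L ^ (1 / 2 : ℝ)) := by gcongr
      obtain ⟨q, hq⟩ : ∃ q, q = L ^ (1 / 2 : ℝ) := ⟨_, rfl⟩
      rw [← hq] at k6 g4
      have hqq : q * q = L := by
        rw [hq, ← Real.rpow_add hL0]
        norm_num
      have hq0 : 0 < q := by rw [hq]; positivity
      have k10 : (∑ m ∈ Ioc n (n + g), fT T m) / L ≤ c * C * L + 3 * q := by
        rw [div_le_iff₀ hL0]
        have k11 : C * (g : ℝ) ≤ C * (c * L ^ 2) := by gcongr
        nlinarith
      have k12 : 4 ≤ ε * q := by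
        rw [div_le_iff₀ hε] at g4
        linarith
      have k13 : 4 * q ≤ ε * L := by
        rw [← hqq]
        nlinarith
      calc (1 + 2 * ε) * ((∑ m ∈ Ioc n (n + g), fT T m) / L) ≤ (1 + 2 * ε) * (c * C * L + 3 * q) := by
            gcongr
        _ ≤ (1 - 5 * ε) * L := by
            rw [hcCe]
            have k14 : (1 + 2 * ε) * (1 - 8 * ε) * L ≤ (1 - 6 * ε) * L := by
              apply mul_le_mul_of_nonneg_right _ hL0.le
              nlinarith
            have k15 : (1 + 2 * ε) * (3 * q) ≤ 4 * q := by nlinarith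
            nlinarith
    have h2L : 0 < 1 / (2 * L) := by positivity
    calc (x : ℝ) ^ (-(1 - 4 * ε)) = Real.exp (-(ε * L)) * Real.exp (-((1 - 5 * ε) * L)) := by
          rw [Real.rpow_def_of_pos hx0, ← hL, ← Real.exp_add]
          congr 1
          ring
      _ ≤ (1 / (2 * L) * (1 / (2 * L))) * Real.exp (-((1 - 5 * ε) * L)) := by
          apply mul_le_mul_of_nonneg_right _ (Real.exp_pos _).le
          have k1 : 1 / (2 * L) * (1 / (2 * L)) = 1 / (2 * L) ^ 2 := by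
            rw [div_mul_div_comm, one_mul, sq]
          rw [Real.exp_neg, ← one_div, k1]
          apply one_div_le_one_div_of_le (by positivity) g5
      _ ≤ μ.real (E n) * μ.real (E (n + g)) *
          Real.exp (-∑ m ∈ Ioc n (n + g), (μ.real (E m) + 2 * μ.real (E m) ^ 2)) := by
          apply mul_le_mul _ _ (Real.exp_pos _).le (by positivity)
          · exact mul_le_mul hEn hEg h2L.le measureReal_nonneg
          · apply Real.exp_le_exp.2
            linarith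
  calc (x : ℝ) ^ ε ≤ (x : ℝ) ^ (3 * ε) := Real.rpow_le_rpow_of_exponent_le (by linarith) (by linarith)
    _ = (x : ℝ) ^ (1 - ε) * (x : ℝ) ^ (-(1 - 4 * ε)) := by
        rw [← Real.rpow_add hx0]
        congr 1
        ring
    _ ≤ S.card * (x : ℝ) ^ (-(1 - 4 * ε)) := by gcongr
    _ = ∑ n ∈ S, (x : ℝ) ^ (-(1 - 4 * ε)) := by rw [sum_const, nsmul_eq_mul]
    _ ≤ ∑ n ∈ S, μ.real (FF E g n) := sum_le_sum hone

end Pool.Agent.U839.Rg
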