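import Mathlib
import Pool.Agent.U839.Rg.Occ

set_option autoImplicit false

/-! # The least even number which is not a gap -/

open MeasureTheory ProbabilityTheory Filter Finset Topology

namespace Pool.Agent.U839.Rg

open Pool.Agent.U839.Thin (tlog)
open Pool.Agent.U839.Sv (fT Sieved law' partA GS GS_bdd inf)

variable {Ω : Type*} [MeasurableSpace Ω] {μ : Measure Ω} [IsProbabilityMeasure μ]

/-- almost surely all short even gaps occur in all dyadic intervals -/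
theorem occ (T : ℕ → ℕ) (hT : Monotone T)
    (hTs : ∀ ε : ℝ, 0 < ε → ∀ᶠ n : ℕ in atTop, (T n : ℝ) ≤ (n : ℝ) ^ ε) (C : ℝ) (hC : 1 ≤ C)
    (hUB : UB T C) (c : ℝ) (hc : 0 < c) (hcC : c * C < 1) {E : ℕ → Set Ω} (h : Sieved μ E T) :
    ∀ᵐ ω ∂μ, ∀ᶠ j : ℕ in atTop, ∀ g : ℕ, Even g → 0 < g →
      (g : ℝ) ≤ c * (Real.log ((2 ^ j : ℕ) : ℝ)) ^ 2 →
      ∃ n, 2 ^ j < n ∧ n ≤ 2 ^ j + 2 ^ j ∧ ω ∈ FF E g n := by
  classical
  have hc1 : c ≤ 1 := by nlinarith
  obtain ⟨ε, hε, hmean⟩ := mean_large (μ := μ) T hT hTs C hC hUB c hc hcC h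
  have hpow : Tendsto (fun j : ℕ => 2 ^ j) atTop atTop := tendsto_pow_atTop_atTop_of_one_lt (by norm_num)
  obtain ⟨j₀, hj₀⟩ := eventually_atTop.1 (hpow.eventually hmean)
  obtain ⟨G, hG⟩ : ∃ G : ℕ → Finset ℕ, G = fun j => (range (j ^ 2 + 1)).filter
    (fun g : ℕ => Even g ∧ 0 < g ∧ (g : ℝ) ≤ c * (Real.log ((2 ^ j : ℕ) : ℝ)) ^ 2) := ⟨_, rfl⟩
  obtain ⟨B, hB⟩ : ∃ B : ℕ → ℕ → Set Ω, B = fun j g =>
    {ω | ∀ n, 2 ^ j < n → n ≤ 2 ^ j + 2 ^ j → ω ∉ FF E g n} := ⟨_, rfl⟩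
  have hsingle : ∀ j, j₀ ≤ j → ∀ g ∈ G j, μ.real (B j g) ≤ 12 * ((2 : ℝ) ^ (-ε)) ^ j := by
    intro j hj g hg
    rw [hG, mem_filter] at hg
    obtain ⟨S, hS, hSm⟩ := hj₀ j hj g hg.2.1 hg.2.2.1 hg.2.2.2
    have hx0 : (0 : ℝ) < ((2 ^ j : ℕ) : ℝ) := by positivity
    have hpos : 0 < ∑ n ∈ S, μ.real (FF E g n) := lt_of_lt_of_le (by positivity) hSm
    have h1 := none_le (μ := μ) h.meas h.indep g S hpos
    have h2 : B j g ⊆ {ω | ∀ n ∈ S, ω ∉ FF E g n} := by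
      intro ω hω n hn
      rw [hB] at hω
      have h3 := mem_Ioc.1 (hS hn)
      exact hω n h3.1 h3.2
    calc μ.real (B j g) ≤ μ.real {ω | ∀ n ∈ S, ω ∉ FF E g n} :=
          measureReal_mono h2 (measure_ne_top _ _)
      _ ≤ 12 / ∑ n ∈ S, μ.real (FF E g n) := h1
      _ ≤ 12 / ((2 ^ j : ℕ) : ℝ) ^ ε := by gcongr
      _ = 12 * ((2 : ℝ) ^ (-ε)) ^ j := by
          push_cast
          rw [← Real.rpow_natCast, ← Real.rpow_mul (by norm_num), ← Real.rpow_natCast,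
            ← Real.rpow_mul (by norm_num), div_eq_mul_inv, ← Real.rpow_neg (by norm_num)]
          congr 2
          ring
  have hr : ‖(2 : ℝ) ^ (-ε)‖ < 1 := by
    rw [Real.norm_of_nonneg (by positivity)]
    exact Real.rpow_lt_one_of_one_lt_of_neg (by norm_num) (by linarith)
  have hsum : Summable (fun j : ℕ => μ.real (⋃ g ∈ G j, B j g)) := by
    have h1 : Summable (fun j : ℕ => 24 * ((j : ℝ) ^ 2 * ((2 : ℝ) ^ (-ε)) ^ j)) :=
      (summable_pow_mul_geometric_of_norm_lt_one 2 hr).mul_left 24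
    refine Summable.of_norm_bounded_eventually_nat h1 ?_
    filter_upwards [eventually_ge_atTop j₀, eventually_ge_atTop 1] with j hj hj1
    rw [Real.norm_of_nonneg measureReal_nonneg]
    have hj1' : (1 : ℝ) ≤ j := by exact_mod_cast hj1
    calc μ.real (⋃ g ∈ G j, B j g) ≤ ∑ g ∈ G j, μ.real (B j g) := measureReal_biUnion_finset_le _ _
      _ ≤ ∑ g ∈ G j, 12 * ((2 : ℝ) ^ (-ε)) ^ j := sum_le_sum (hsingle j hj)
      _ = (G j).card * (12 * ((2 : ℝ) ^ (-ε)) ^ j) := by rw [sum_const, nsmul_eq_mul]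
      _ ≤ ((j : ℝ) ^ 2 + 1) * (12 * ((2 : ℝ) ^ (-ε)) ^ j) := by
          apply mul_le_mul_of_nonneg_right _ (by positivity)
          have h2 : (G j).card ≤ j ^ 2 + 1 := by
            rw [hG]
            exact (card_filter_le _ _).trans (by rw [card_range])
          exact_mod_cast h2
      _ ≤ (2 * (j : ℝ) ^ 2) * (12 * ((2 : ℝ) ^ (-ε)) ^ j) := by
          apply mul_le_mul_of_nonneg_right _ (by positivity)
          nlinarith
      _ = 24 * ((j : ℝ) ^ 2 * ((2 : ℝ) ^ (-ε)) ^ j) := by ring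
  filter_upwards [Pool.Agent.U839.Fb.borel hsum] with ω hω
  filter_upwards [hω] with j hj g hge hg0 hgc
  by_contra hcon
  push Not at hcon
  apply hj
  rw [Set.mem_iUnion₂]
  refine ⟨g, ?_, ?_⟩
  · rw [hG, mem_filter, mem_range]
    refine ⟨?_, hge, hg0, hgc⟩
    have h1 : Real.log ((2 ^ j : ℕ) : ℝ) ≤ j := by
      push_cast
      rw [Real.log_pow]
      have := Real.log_two_lt_d9
      have h2 : (0 : ℝ) ≤ j := Nat.cast_nonneg j
      nlinarith
    have h2 : 0 ≤ Real.log ((2 ^ j : ℕ) : ℝ) := Real.log_natCast_nonneg _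
    have h3 : (g : ℝ) ≤ (j : ℝ) ^ 2 := by nlinarith
    have h4 : g ≤ j ^ 2 := by exact_mod_cast h3
    omega
  · rw [hB]
    exact hcon

/-- the `k`-th gap -/
noncomputable def dd (Q : Set ℕ) (k : ℕ) : ℕ := Nat.nth (· ∈ Q) (k + 1) - Nat.nth (· ∈ Q) k

/-- the least positive even number which is not among the first `N` gaps -/
noncomputable def rr (Q : Set ℕ) (N : ℕ) : ℕ := sInf {t | 0 < t ∧ Even t ∧ ∀ k < N, dd Q k ≠ t}

theorem rr_nonempty (Q : Set ℕ) (N : ℕ) : {t | 0 < t ∧ Even t ∧ ∀ k < N, dd Q k ≠ t}.Nonempty := by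
  refine ⟨2 * (∑ k ∈ range N, dd Q k + 1), by omega, even_two_mul _, fun k hk h => ?_⟩
  have h1 : dd Q k ≤ ∑ k ∈ range N, dd Q k :=
    single_le_sum (f := fun k => dd Q k) (fun _ _ => Nat.zero_le _) (mem_range.2 hk)
  omega

omit [MeasurableSpace Ω] in
/-- consecutive elements -/
theorem consec {E : ℕ → Set Ω} {ω : Ω} (Q : Set ℕ) (hQd : Q = {n | ω ∈ E n}) (hQ : Q.Infinite)
    (g n : ℕ) (hg : 0 < g) (h : ω ∈ FF E g n) : ∃ k, k ≤ n ∧ Nat.nth (· ∈ Q) k = n ∧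
      Nat.nth (· ∈ Q) (k + 1) = n + g := by
  classical
  have hQ' : (Set.ofPred (· ∈ Q)).Infinite := hQ
  have hmono := Nat.nth_strictMono hQ'
  rw [FF_mem] at h
  have hn : n ∈ Q := by
    rw [hQd]
    exact (h n le_rfl (by omega)).2 (Or.inl rfl)
  have hng : n + g ∈ Q := by
    rw [hQd]
    exact (h (n + g) (by omega) le_rfl).2 (Or.inr rfl)
  have h1 : Nat.nth (· ∈ Q) (Nat.count (· ∈ Q) n) = n := Nat.nth_count (p := (· ∈ Q)) hn
  have h2 : Nat.nth (· ∈ Q) (Nat.count (· ∈ Q) (n + g)) = n + g := Nat.nth_count (p := (· ∈ Q)) hng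
  refine ⟨Nat.count (· ∈ Q) n, Nat.count_le _, h1, ?_⟩
  have h3 : Nat.count (· ∈ Q) n < Nat.count (· ∈ Q) (n + g) := by
    rw [← hmono.lt_iff_lt, h1, h2]
    omega
  have h4 : Nat.nth (· ∈ Q) (Nat.count (· ∈ Q) n + 1) ≤ n + g := by
    rw [← h2]
    exact hmono.monotone h3
  have h5 : n < Nat.nth (· ∈ Q) (Nat.count (· ∈ Q) n + 1) := by
    nth_rewrite 1 [← h1]
    exact hmono (Nat.lt_succ_self _)
  have h6 : Nat.nth (· ∈ Q) (Nat.count (· ∈ Q) n + 1) ∈ Q := Nat.nth_mem_of_infinite hQ' _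
  have h7 : ω ∈ E (Nat.nth (· ∈ Q) (Nat.count (· ∈ Q) n + 1)) := by
    rw [hQd] at h6
    rw [hQd]
    exact h6
  have h8 := (h _ h5.le h4).1 h7
  omega

omit [MeasurableSpace Ω] in
/-- the lower bound for `rr` and the gaps in `(x, 4 x]` -/
theorem det_low {E : ℕ → Set Ω} {ω : Ω} (Q : Set ℕ) (hQd : Q = {n | ω ∈ E n}) (hQ : Q.Infinite) (c c' : ℝ) (hc' : 0 < c')
    (hcc : c' < c)
    (h : ∀ᶠ j : ℕ in atTop, ∀ g : ℕ, Even g → 0 < g →
      (g : ℝ) ≤ c * (Real.log ((2 ^ j : ℕ) : ℝ)) ^ 2 →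
      ∃ n, 2 ^ j < n ∧ n ≤ 2 ^ j + 2 ^ j ∧ ω ∈ FF E g n) :
    (∀ᶠ x : ℕ in atTop, ∀ g : ℕ, Even g → 0 < g → (g : ℝ) ≤ c' * (Real.log x) ^ 2 →
      ∃ k, x < Nat.nth (· ∈ Q) k ∧ Nat.nth (· ∈ Q) k ≤ 4 * x ∧
        dd Q k = g) ∧
    ∀ᶠ N : ℕ in atTop, c' * (Real.log N) ^ 2 ≤ rr Q N := by
  obtain ⟨j₀, hj₀⟩ := eventually_atTop.1 h
  constructor
  · filter_upwards [eventually_ge_atTop (2 ^ j₀), eventually_ge_atTop 1] with x hx hx1 g hge hg0 hgc
    obtain ⟨j, hj1, hj2⟩ : ∃ j, 2 ^ j ≤ x ∧ x < 2 ^ (j + 1) :=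
      ⟨Nat.log 2 x, Nat.pow_log_le_self 2 (by omega), Nat.lt_pow_succ_log_self (by norm_num) x⟩
    have hjj : j₀ ≤ j + 1 := by
      by_contra hcon
      push Not at hcon
      have : 2 ^ (j + 1) ≤ 2 ^ j₀ := Nat.pow_le_pow_right (by norm_num) hcon.le
      omega
    have hxr : (1 : ℝ) ≤ x := by exact_mod_cast hx1
    obtain ⟨n, h1, h2, h3⟩ := hj₀ (j + 1) hjj g hge hg0 (by
      refine hgc.trans ?_
      have h4 : Real.log x ≤ Real.log ((2 ^ (j + 1) : ℕ) : ℝ) :=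
        Real.log_le_log (by linarith) (by exact_mod_cast hj2.le)
      have h5 : 0 ≤ Real.log x := Real.log_natCast_nonneg x
      have h6 := pow_le_pow_left₀ h5 h4 2
      have h7 : 0 ≤ (Real.log x) ^ 2 := sq_nonneg _
      nlinarith)
    obtain ⟨k, h4, h5, h6⟩ := consec Q hQd hQ g n hg0 h3
    have hp : 2 ^ (j + 1) = 2 * 2 ^ j := by ring
    refine ⟨k, by rw [h5]; omega, by rw [h5]; omega, ?_⟩
    unfold dd
    rw [h5, h6]
    omega
  · have e1 : ∀ᶠ N : ℕ in atTop, c' * (Real.log N) ^ 2 ≤ c * (Real.log N - 3) ^ 2 := by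
      have e2 : ∀ᶠ N : ℕ in atTop, 6 * c / (c - c') ≤ Real.log N := tlog.eventually_ge_atTop _
      filter_upwards [e2, tlog.eventually_ge_atTop 3] with N g1 g2
      have hd : 0 < c - c' := by linarith
      rw [div_le_iff₀ hd] at g1
      nlinarith
    filter_upwards [e1, eventually_ge_atTop (2 ^ (j₀ + 3)), eventually_ge_atTop 4,
      tlog.eventually_ge_atTop 3] with N g1 g2 g3 g4
    have h0 := Nat.sInf_mem (rr_nonempty Q N)
    have hrr : rr Q N = sInf {t | 0 < t ∧ Even t ∧ ∀ k < N, dd Q k ≠ t} := rfl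
    rw [← hrr] at h0
    obtain ⟨h1, h2, h3⟩ := h0
    by_contra hcon
    push Not at hcon
    obtain ⟨j, hj1, hj2⟩ : ∃ j, 2 ^ (j + 2) ≤ N ∧ N < 2 ^ (j + 3) := by
      have h4 : 2 ≤ Nat.log 2 N := by
        apply Nat.le_log_of_pow_le (by norm_num)
        omega
      refine ⟨Nat.log 2 N - 2, ?_, ?_⟩
      · have : Nat.log 2 N - 2 + 2 = Nat.log 2 N := by omega
        rw [this]
        exact Nat.pow_log_le_self 2 (by omega)
      · have : Nat.log 2 N - 2 + 3 = Nat.log 2 N + 1 := by omega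
        rw [this]
        exact Nat.lt_pow_succ_log_self (by norm_num) N
    have hjj : j₀ ≤ j := by
      by_contra hcon2
      push Not at hcon2
      have : 2 ^ (j + 3) ≤ 2 ^ (j₀ + 3) := Nat.pow_le_pow_right (by norm_num) (by omega)
      omega
    have hlogj : Real.log N - 3 ≤ Real.log ((2 ^ j : ℕ) : ℝ) := by
      have hN0 : (0 : ℝ) < N := by exact_mod_cast (by omega : 0 < N)
      have h5 : Real.log N ≤ Real.log ((2 ^ (j + 3) : ℕ) : ℝ) :=
        Real.log_le_log hN0 (by exact_mod_cast hj2.le)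
      push_cast at h5 ⊢
      rw [Real.log_pow] at h5 ⊢
      push_cast at h5
      have := Real.log_two_lt_d9
      linarith
    obtain ⟨n, h4, h5, h6⟩ := hj₀ j hjj (rr Q N) h2 h1 (by
      refine hcon.le.trans (g1.trans ?_)
      have h7 : (Real.log N - 3) ^ 2 ≤ (Real.log ((2 ^ j : ℕ) : ℝ)) ^ 2 :=
        pow_le_pow_left₀ (by linarith) hlogj 2
      nlinarith)
    obtain ⟨k, h7, h8, h9⟩ := consec Q hQd hQ _ n h1 h6
    have hp : 2 ^ (j + 2) = 4 * 2 ^ j := by ring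
    have hpp : 0 < 2 ^ j := by positivity
    apply h3 k (by omega)
    unfold dd
    rw [h8, h9]
    omega

/-- the upper bound for `rr` -/
theorem det_up (Q : Set ℕ) (hQ : Q.Infinite) (h : Tendsto (fun X : ℕ => (GS Q X : ℝ) / (Real.log X) ^ 2)
    atTop (𝓝 1)) (ε : ℝ) (hε : 0 < ε) :
    ∀ᶠ N : ℕ in atTop, (rr Q N : ℝ) ≤ (1 + ε) * (Real.log N) ^ 2 := by
  classical
  have hQ' : (Set.ofPred (· ∈ Q)).Infinite := hQ
  have hmono := Nat.nth_strictMono hQ'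
  have hqt : Tendsto (fun N => Nat.nth (· ∈ Q) N) atTop atTop := hmono.tendsto_atTop
  obtain ⟨e, he0, he1, he2⟩ : ∃ e : ℝ, 0 < e ∧ e ≤ 1 / 4 ∧ 16 * e ≤ ε := by
    refine ⟨min (1 / 4) (ε / 16), by positivity, min_le_left _ _, ?_⟩
    have := min_le_right (1 / 4) (ε / 16)
    linarith
  have h1 : ∀ᶠ X : ℕ in atTop, (GS Q X : ℝ) ≤ (1 + e) * (Real.log X) ^ 2 := by
    filter_upwards [h.eventually (gt_mem_nhds (show (1 : ℝ) < 1 + e by linarith)),
      tlog.eventually_ge_atTop 1] with X g1 g2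
    rw [div_lt_iff₀ (by positivity)] at g1
    exact g1.le
  have h2 : ∀ᶠ X : ℕ in atTop, (2 * (Real.log X) ^ 2 + 1) ≤ (X : ℝ) ^ e := by
    have k1 := Pool.Agent.U839.Sv.log_sq_small 2 (e / 2) (by norm_num) (by positivity)
    have k2 : ∀ᶠ X : ℕ in atTop, (2 : ℝ) ≤ (X : ℝ) ^ (e / 2) :=
      ((tendsto_rpow_atTop (by positivity)).comp tendsto_natCast_atTop_atTop).eventually_ge_atTop _
    filter_upwards [k1, k2, eventually_ge_atTop 1] with X g1 g2 g3
    have hX0 : (0 : ℝ) < X := by exact_mod_cast g3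
    have k3 : (X : ℝ) ^ e = (X : ℝ) ^ (e / 2) * (X : ℝ) ^ (e / 2) := by
      rw [← Real.rpow_add hX0]
      congr 1
      ring
    rw [k3]
    nlinarith [sq_nonneg (Real.log X)]
  filter_upwards [hqt.eventually h1, hqt.eventually h2, eventually_ge_atTop 2,
    hqt.eventually (eventually_ge_atTop (2 * Nat.nth (· ∈ Q) 0 + 2)),
    tlog.eventually_ge_atTop (2 / e), tlog.eventually_ge_atTop (2 * Real.log 2 / e), tlog.eventually_ge_atTop 1]
    with N g1 g2 g3 g4 g5 g6 g7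
  obtain ⟨q, hq⟩ : ∃ q, q = Nat.nth (· ∈ Q) N := ⟨_, rfl⟩
  obtain ⟨q₀, hq₀⟩ : ∃ q₀, q₀ = Nat.nth (· ∈ Q) 0 := ⟨_, rfl⟩
  rw [← hq] at g1 g2 g4
  rw [← hq₀] at g4
  have hle : ∀ k ≤ N, dd Q k ≤ GS Q q := by
    intro k hk
    apply le_csSup (GS_bdd Q hQ q)
    exact ⟨k, by rw [hq]; exact hmono.monotone hk, rfl⟩
  -- `rr` is at most the maximal gap plus 2
  have hrr : rr Q N ≤ GS Q q + 2 := by
    rcases Nat.even_or_odd (GS Q q) with hev | hod
    · apply Nat.sInf_le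
      refine ⟨by omega, hev.add (by norm_num), fun k hk h3 => ?_⟩
      have := hle k hk.le
      omega
    · refine le_trans (Nat.sInf_le (show GS Q q + 1 ∈ _ from ⟨by omega, hod.add_one, fun k hk h3 => ?_⟩))
        (by omega)
      have := hle k hk.le
      omega
  -- the size of `q`
  have hsumq : ∀ M ≤ N, Nat.nth (· ∈ Q) M ≤ q₀ + M * GS Q q := by
    intro M
    induction M with
    | zero => intro _; rw [← hq₀]; omega
    | succ M ih =>
      intro hM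
      have h3 := ih (by omega)
      have h4 := hle M (by omega)
      unfold dd at h4
      have h5 : Nat.nth (· ∈ Q) M < Nat.nth (· ∈ Q) (M + 1) := hmono (Nat.lt_succ_self M)
      have h6 : (M + 1) * GS Q q = M * GS Q q + GS Q q := by ring
      omega
  have hqN : (q : ℝ) ≤ 2 * (N * (q : ℝ) ^ e) := by
    have h3 := hsumq N le_rfl
    rw [← hq] at h3
    have h4 : q ≤ 2 * (N * GS Q q) := by omega
    have h5 : (q : ℝ) ≤ 2 * (N * GS Q q) := by exact_mod_cast h4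
    refine h5.trans ?_
    have h6 : (GS Q q : ℝ) ≤ (q : ℝ) ^ e := by
      refine g1.trans ?_
      have := sq_nonneg (Real.log q)
      nlinarith
    gcongr
  have hq0 : (0 : ℝ) < q := by exact_mod_cast (by omega : 0 < q)
  have hN0 : (0 : ℝ) < N := by exact_mod_cast (by omega : 0 < N)
  have hlogq : Real.log q ≤ (1 + 3 * e) * Real.log N := by
    have h3 := Real.log_le_log hq0 hqN
    rw [Real.log_mul (by norm_num) (by positivity), Real.log_mul hN0.ne' (by positivity),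
      Real.log_rpow hq0] at h3
    have h4 : 2 * Real.log 2 ≤ e * Real.log N := by
      rw [div_le_iff₀ he0] at g6
      linarith
    have h5 : (1 - e) * Real.log q ≤ (1 + e / 2) * Real.log N := by linarith
    have h6 : (1 + e / 2) * Real.log N ≤ (1 - e) * ((1 + 3 * e) * Real.log N) := by
      have : (1 + e / 2) ≤ (1 - e) * (1 + 3 * e) := by nlinarith
      calc (1 + e / 2) * Real.log N ≤ ((1 - e) * (1 + 3 * e)) * Real.log N := by gcongr
        _ = _ := by ring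
    exact le_of_mul_le_mul_left (h5.trans h6) (by linarith)
  have hlogq0 : 0 ≤ Real.log q := Real.log_natCast_nonneg q
  have h3 : (rr Q N : ℝ) ≤ GS Q q + 2 := by exact_mod_cast hrr
  have h4 : (Real.log q) ^ 2 ≤ ((1 + 3 * e) * Real.log N) ^ 2 := pow_le_pow_left₀ hlogq0 hlogq 2
  have h5 : (1 + e) * (Real.log q) ^ 2 ≤ (1 + e) * ((1 + 3 * e) * Real.log N) ^ 2 := by gcongr
  have h6 : (2 : ℝ) ≤ e * (Real.log N) ^ 2 := by
    rw [div_le_iff₀ he0] at g5
    nlinarith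
  have h7 : (1 + e) * ((1 + 3 * e) * Real.log N) ^ 2 + e * (Real.log N) ^ 2 ≤
      (1 + 16 * e) * (Real.log N) ^ 2 := by
    have h8 : (1 + e) * (1 + 3 * e) ^ 2 + e ≤ 1 + 16 * e := by nlinarith [mul_pos he0 he0]
    calc (1 + e) * ((1 + 3 * e) * Real.log N) ^ 2 + e * (Real.log N) ^ 2 =
        ((1 + e) * (1 + 3 * e) ^ 2 + e) * (Real.log N) ^ 2 := by ring
      _ ≤ (1 + 16 * e) * (Real.log N) ^ 2 := by gcongr
  have h8 : (1 + 16 * e) * (Real.log N) ^ 2 ≤ (1 + ε) * (Real.log N) ^ 2 := by gcongr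
  linarith

end Pool.Agent.U839.Rg
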